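import Mathlib

set_option autoImplicit false

/-!
`L_1[0,1]` has uniform property (S) but its bidual has not.
-/

namespace Pool.Agent.Results.MP_973dba_an.BidualFails

open MeasureTheory Filter Topology Set

/-- `U_X(x,y;a)`, the supremum of `|‖x + z‖ - ‖y + z‖|` over `‖z‖ ≤ a`. -/
noncomputable def modulus {X : Type} [NormedAddCommGroup X] (x y : X) (a : ℝ) : ℝ :=
  sSup {r : ℝ | ∃ z : X, ‖z‖ ≤ a ∧ r = |‖x + z‖ - ‖y + z‖|}

/-- Uniform property (S): for `0 < d < 2` and `a > 0` the numbers `U_X(x,y;a)`, `x, y` in the unit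
sphere with `‖x - y‖ ≥ d`, are bounded below by a positive number. -/
def UniformS (X : Type) [NormedAddCommGroup X] : Prop :=
  ∀ d a : ℝ, 0 < d → d < 2 → 0 < a → ∃ c : ℝ, 0 < c ∧
    ∀ x y : X, ‖x‖ = 1 → ‖y‖ = 1 → d ≤ ‖x - y‖ → c ≤ modulus x y a

lemma modulus_bddAbove {X : Type} [NormedAddCommGroup X] (x y : X) (a : ℝ) :
    BddAbove {r : ℝ | ∃ z : X, ‖z‖ ≤ a ∧ r = |‖x + z‖ - ‖y + z‖|} := by
  refine ⟨‖x - y‖, ?_⟩
  rintro _ ⟨z, _, rfl⟩
  have := abs_norm_sub_norm_le (x + z) (y + z)
  rwa [add_sub_add_right_eq_sub] at this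

/-- Lebesgue measure on `[0,1]`. -/
noncomputable abbrev μ : Measure ℝ := volume.restrict (Icc 0 1)

instance : IsFiniteMeasure μ := inferInstance

/-- The Banach space `L_1[0,1]`. -/
abbrev X : Type := Lp ℝ 1 μ

/-- The functional given by a bounded measurable function. -/
noncomputable def G (h : ℝ → ℝ) (hm : Measurable h) (C : ℝ) (hC : ∀ t, |h t| ≤ C) :
    StrongDual ℝ X :=
  LinearMap.mkContinuous
    { toFun := fun f => ∫ t, h t * f t ∂μ
      map_add' := fun f g => by
        have hf : Integrable (fun t => h t * f t) μ :=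
          (L1.integrable_coeFn f).bdd_mul hm.aestronglyMeasurable (ae_of_all _ hC)
        have hg : Integrable (fun t => h t * g t) μ :=
          (L1.integrable_coeFn g).bdd_mul hm.aestronglyMeasurable (ae_of_all _ hC)
        rw [← integral_add hf hg]
        refine integral_congr_ae ?_
        filter_upwards [Lp.coeFn_add f g] with t ht
        rw [ht, Pi.add_apply]; ring
      map_smul' := fun c f => by
        change _ = c * _
        rw [← integral_const_mul]
        refine integral_congr_ae ?_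
        filter_upwards [Lp.coeFn_smul c f] with t ht
        rw [ht, Pi.smul_apply, smul_eq_mul]; ring } C fun f => by
    have h1 : ‖f‖ = ∫ t, ‖f t‖ ∂μ := L1.norm_eq_integral_norm f
    change ‖∫ t, h t * f t ∂μ‖ ≤ C * ‖f‖
    rw [h1, ← integral_const_mul]
    refine norm_integral_le_of_norm_le ((L1.integrable_coeFn f).norm.const_mul C) (ae_of_all _ ?_)
    intro t
    rw [norm_mul]
    exact mul_le_mul_of_nonneg_right (hC t) (norm_nonneg _)

lemma G_apply (h : ℝ → ℝ) (hm : Measurable h) (C : ℝ) (hC : ∀ t, |h t| ≤ C) (f : X) :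
    G h hm C hC f = ∫ t, h t * f t ∂μ := rfl

lemma norm_G_le (h : ℝ → ℝ) (hm : Measurable h) (C : ℝ) (hC : ∀ t, |h t| ≤ C) :
    ‖G h hm C hC‖ ≤ C :=
  LinearMap.mkContinuous_norm_le _ ((abs_nonneg _).trans (hC 0)) _

/-- The indicator function of a measurable set, in `L_1`. -/
noncomputable def ind (s : Set ℝ) (hs : MeasurableSet s) : X :=
  indicatorConstLp 1 hs (measure_ne_top μ s) (1 : ℝ)

lemma norm_ind (s : Set ℝ) (hs : MeasurableSet s) : ‖ind s hs‖ = μ.real s := by
  rw [ind, norm_indicatorConstLp one_ne_zero ENNReal.one_ne_top]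
  simp

lemma G_ind (h : ℝ → ℝ) (hm : Measurable h) (C : ℝ) (hC : ∀ t, |h t| ≤ C) (s : Set ℝ)
    (hs : MeasurableSet s) : G h hm C hC (ind s hs) = ∫ t in s, h t ∂μ := by
  rw [G_apply, ← integral_indicator hs]
  refine integral_congr_ae ?_
  filter_upwards [indicatorConstLp_coeFn (p := 1) (hs := hs) (hμs := measure_ne_top μ s)
    (c := (1 : ℝ))] with t ht
  rw [ind, ht]
  by_cases hts : t ∈ s
  · rw [indicator_of_mem hts, indicator_of_mem hts, mul_one]
  · rw [indicator_of_notMem hts, indicator_of_notMem hts, mul_zero]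

/-- The inclusion of `L_2` into `L_1`. -/
noncomputable def J : Lp ℝ 2 μ →L[ℝ] X :=
  LinearMap.mkContinuous
    { toFun := fun f => ((Lp.memLp f).mono_exponent one_le_two).toLp f
      map_add' := fun f g => by
        rw [← MemLp.toLp_add]
        exact MemLp.toLp_congr _ _ (Lp.coeFn_add f g)
      map_smul' := fun c f => by
        rw [RingHom.id_apply, ← MemLp.toLp_const_smul]
        exact MemLp.toLp_congr _ _ (Lp.coeFn_smul c f) } 1 fun f => by
    change ‖((Lp.memLp f).mono_exponent one_le_two).toLp f‖ ≤ 1 * ‖f‖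
    rw [Lp.norm_toLp, Lp.norm_def, one_mul]
    refine ENNReal.toReal_mono (Lp.memLp f).eLpNorm_ne_top ?_
    have h1 := eLpNorm_le_eLpNorm_mul_rpow_measure_univ (μ := μ) (f := f) one_le_two
      (Lp.aestronglyMeasurable f)
    simpa using h1

lemma J_ind (s : Set ℝ) (hs : MeasurableSet s) :
    J (indicatorConstLp 2 hs (measure_ne_top μ s) (1 : ℝ)) = ind s hs := by
  refine Lp.ext ?_
  have h1 : (J (indicatorConstLp 2 hs (measure_ne_top μ s) (1 : ℝ)) : ℝ → ℝ) =ᵐ[μ]
      (indicatorConstLp 2 hs (measure_ne_top μ s) (1 : ℝ) : Lp ℝ 2 μ) :=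
    MemLp.coeFn_toLp ((Lp.memLp _).mono_exponent one_le_two)
  have h2 : (indicatorConstLp 2 hs (measure_ne_top μ s) (1 : ℝ) : Lp ℝ 2 μ) =ᵐ[μ]
      s.indicator fun _ => (1 : ℝ) := indicatorConstLp_coeFn
  have h3 : (ind s hs : ℝ → ℝ) =ᵐ[μ] s.indicator fun _ => (1 : ℝ) := indicatorConstLp_coeFn
  exact h1.trans (h2.trans h3.symm)

/-- Every functional on `L_1` is given by a bounded measurable function. -/
lemma exists_rep (g : StrongDual ℝ X) :
    ∃ (h : ℝ → ℝ) (hm : Measurable h) (hC : ∀ t, |h t| ≤ ‖g‖), g = G h hm ‖g‖ hC := by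
  -- the density in `L_2`
  let k : Lp ℝ 2 μ := (InnerProductSpace.toDual ℝ (Lp ℝ 2 μ)).symm (g.comp J)
  have hk : ∀ f, inner ℝ k f = g (J f) := fun f => InnerProductSpace.toDual_symm_apply
  have hks : ∀ (s : Set ℝ) (hs : MeasurableSet s), ∫ t in s, k t ∂μ = g (ind s hs) := by
    intro s hs
    rw [← J_ind, ← hk, real_inner_comm, L2.inner_indicatorConstLp_one]
  have hkint : Integrable k μ := (Lp.memLp k).integrable one_le_two
  have hbound : ∀ (s : Set ℝ) (hs : MeasurableSet s), |∫ t in s, k t ∂μ| ≤ ‖g‖ * μ.real s := by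
    intro s hs
    rw [hks s hs, ← norm_ind s hs]
    exact g.le_opNorm _
  have hle : ∀ᵐ t ∂μ, |k t| ≤ ‖g‖ := by
    have h1 : 0 ≤ᵐ[μ] fun t => ‖g‖ - k t := by
      refine ae_nonneg_of_forall_setIntegral_nonneg ((integrable_const _).sub hkint) ?_
      intro s hs _
      rw [integral_sub (integrable_const _) hkint.integrableOn, setIntegral_const, smul_eq_mul]
      have := (abs_le.1 (hbound s hs)).2
      linarith
    have h2 : 0 ≤ᵐ[μ] fun t => ‖g‖ + k t := by
      refine ae_nonneg_of_forall_setIntegral_nonneg ((integrable_const _).add hkint) ?_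
      intro s hs _
      rw [integral_add (integrable_const _) hkint.integrableOn, setIntegral_const, smul_eq_mul]
      have := (abs_le.1 (hbound s hs)).1
      linarith
    filter_upwards [h1, h2] with t ht1 ht2
    rw [Pi.zero_apply] at ht1 ht2
    exact abs_le.2 ⟨by linarith, by linarith⟩
  have hkm : StronglyMeasurable (fun t => k t) := Lp.stronglyMeasurable k
  have hg0 : 0 ≤ ‖g‖ := norm_nonneg _
  refine ⟨fun t => max (-‖g‖) (min ‖g‖ (k t)), ?_, ?_, ?_⟩
  · exact measurable_const.max (measurable_const.min hkm.measurable)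
  · intro t
    rw [abs_le]
    exact ⟨le_max_left _ _, max_le (by linarith) (min_le_left _ _)⟩
  · refine ContinuousLinearMap.ext fun f => ?_
    refine Lp.induction ENNReal.one_ne_top (motive := fun f => g f = G _ _ _ _ f) ?_ ?_ ?_ f
    · intro c s hs hμs
      have h1 : (Lp.simpleFunc.indicatorConst 1 hs hμs.ne c : X) = c • ind s hs := by
        rw [Lp.simpleFunc.coe_indicatorConst]
        refine Lp.ext ?_
        filter_upwards [indicatorConstLp_coeFn (p := 1) (hs := hs) (hμs := hμs.ne) (c := c),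
          Lp.coeFn_smul c (ind s hs), indicatorConstLp_coeFn (p := 1) (hs := hs)
          (hμs := measure_ne_top μ s) (c := (1 : ℝ))] with t a1 a2 a3
        rw [a1, a2, Pi.smul_apply, ind, a3]
        by_cases hts : t ∈ s
        · rw [indicator_of_mem hts, indicator_of_mem hts, smul_eq_mul, mul_one]
        · rw [indicator_of_notMem hts, indicator_of_notMem hts, smul_zero]
      rw [h1, map_smul, map_smul, G_ind, ← hks s hs]
      congr 1
      refine setIntegral_congr_ae hs ?_
      filter_upwards [hle] with t ht _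
      rw [min_eq_right (abs_le.1 ht).2, max_eq_right (abs_le.1 ht).1]
    · intro f g' hf hg' _ h1 h2
      rw [map_add, map_add, h1, h2]
    · exact isClosed_eq (ContinuousLinearMap.continuous _) (ContinuousLinearMap.continuous _)

/-- The density of a functional. -/
noncomputable def rep (g : StrongDual ℝ X) : ℝ → ℝ := (exists_rep g).choose

lemma rep_measurable (g : StrongDual ℝ X) : Measurable (rep g) := (exists_rep g).choose_spec.choose

lemma rep_le (g : StrongDual ℝ X) (t : ℝ) : |rep g t| ≤ ‖g‖ :=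
  (exists_rep g).choose_spec.choose_spec.choose t

lemma eq_G_rep (g : StrongDual ℝ X) : g = G (rep g) (rep_measurable g) ‖g‖ (rep_le g) :=
  (exists_rep g).choose_spec.choose_spec.choose_spec

lemma integrable_of_bdd (h : ℝ → ℝ) (hm : Measurable h) (C : ℝ) (hC : ∀ t, |h t| ≤ C) :
    Integrable h μ :=
  Integrable.of_bound hm.aestronglyMeasurable C (ae_of_all _ hC)

lemma rep_ae_eq (g : StrongDual ℝ X) (h : ℝ → ℝ) (hm : Measurable h) (C : ℝ)
    (hC : ∀ t, |h t| ≤ C) (hg : ∀ (s : Set ℝ) (hs : MeasurableSet s),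
      g (ind s hs) = ∫ t in s, h t ∂μ) : rep g =ᵐ[μ] h := by
  refine Integrable.ae_eq_of_forall_setIntegral_eq _ _
    (integrable_of_bdd _ (rep_measurable g) _ (rep_le g)) (integrable_of_bdd _ hm _ hC) ?_
  intro s hs _
  rw [← hg s hs, ← G_ind (rep g) (rep_measurable g) ‖g‖ (rep_le g) s hs, ← eq_G_rep g]

lemma rep_G (h : ℝ → ℝ) (hm : Measurable h) (C : ℝ) (hC : ∀ t, |h t| ≤ C) :
    rep (G h hm C hC) =ᵐ[μ] h :=
  rep_ae_eq _ h hm C hC fun s hs => G_ind h hm C hC s hs

lemma apply_ind (g : StrongDual ℝ X) (s : Set ℝ) (hs : MeasurableSet s) :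
    g (ind s hs) = ∫ t in s, rep g t ∂μ := by
  rw [← G_ind (rep g) (rep_measurable g) ‖g‖ (rep_le g) s hs, ← eq_G_rep g]

section char

variable (V : Ultrafilter ℝ)

lemma exists_lim (g : StrongDual ℝ X) :
    ∃ b : ℝ, |b| ≤ ‖g‖ ∧ Tendsto (rep g) (V : Filter ℝ) (𝓝 b) := by
  have hbdd : ∀ t, rep g t ∈ Set.Icc (-‖g‖) ‖g‖ := fun t => abs_le.1 (rep_le g t)
  obtain ⟨b, hb1, hb⟩ := isCompact_Icc.ultrafilter_le_nhds (V.map (rep g))
    (by
      rw [le_principal_iff]
      exact Filter.mem_map.2 (Filter.univ_mem' hbdd))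
  exact ⟨b, abs_le.2 hb1, hb⟩

/-- The value of a functional at an ultrafilter. -/
noncomputable def val (g : StrongDual ℝ X) : ℝ := (exists_lim V g).choose

lemma abs_val (g : StrongDual ℝ X) : |val V g| ≤ ‖g‖ := (exists_lim V g).choose_spec.1

lemma tendsto_val (g : StrongDual ℝ X) : Tendsto (rep g) (V : Filter ℝ) (𝓝 (val V g)) :=
  (exists_lim V g).choose_spec.2

variable (hV : (V : Filter ℝ) ≤ ae μ)

/-- The functional on `L_1*` given by an ultrafilter. -/
noncomputable def char : StrongDual ℝ (StrongDual ℝ X) :=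
  LinearMap.mkContinuous
    { toFun := val V
      map_add' := fun g g' => by
        have h1 : rep (g + g') =ᵐ[μ] fun t => rep g t + rep g' t := by
          refine rep_ae_eq _ _ ((rep_measurable g).add (rep_measurable g')) (‖g‖ + ‖g'‖)
            (fun t => (abs_add_le _ _).trans (add_le_add (rep_le g t) (rep_le g' t))) ?_
          intro s hs
          rw [integral_add (integrable_of_bdd _ (rep_measurable g) _ (rep_le g)).integrableOn
            (integrable_of_bdd _ (rep_measurable g') _ (rep_le g')).integrableOn,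
            ← apply_ind, ← apply_ind]
          rfl
        have h2 : Tendsto (rep (g + g')) (V : Filter ℝ) (𝓝 (val V g + val V g')) :=
          ((tendsto_val V g).add (tendsto_val V g')).congr' (h1.symm.filter_mono hV)
        exact tendsto_nhds_unique (tendsto_val V (g + g')) h2
      map_smul' := fun c g => by
        have h1 : rep (c • g) =ᵐ[μ] fun t => c * rep g t := by
          refine rep_ae_eq _ _ ((rep_measurable g).const_mul c) (|c| * ‖g‖)
            (fun t => by rw [abs_mul]; exact mul_le_mul_of_nonneg_left (rep_le g t)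
                          (abs_nonneg c)) ?_
          intro s hs
          rw [integral_const_mul, ← apply_ind]
          rfl
        have h2 : Tendsto (rep (c • g)) (V : Filter ℝ) (𝓝 (c * val V g)) :=
          ((tendsto_val V g).const_mul c).congr' (h1.symm.filter_mono hV)
        exact tendsto_nhds_unique (tendsto_val V (c • g)) h2 } 1 fun g => by
    rw [one_mul]; exact abs_val V g

lemma char_apply (g : StrongDual ℝ X) : char V hV g = val V g := rfl

lemma char_G (h : ℝ → ℝ) (hm : Measurable h) (C : ℝ) (hC : ∀ t, |h t| ≤ C) (b : ℝ)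
    (hb : Tendsto h (V : Filter ℝ) (𝓝 b)) : char V hV (G h hm C hC) = b :=
  tendsto_nhds_unique (tendsto_val V _) (hb.congr' ((rep_G h hm C hC).symm.filter_mono hV))

end char

/-- Changing a functional near two ultrafilters. -/
lemma modify (V W : Ultrafilter ℝ) (hV : (V : Filter ℝ) ≤ ae μ) (hW : (W : Filter ℝ) ≤ ae μ)
    (hVA : Iic (1 / 2 : ℝ) ∈ V) (hWA : (Iic (1 / 2 : ℝ))ᶜ ∈ W) (g : StrongDual ℝ X) (hg : ‖g‖ ≤ 1)
    (ε : ℝ) (hε : 0 < ε) :
    ∃ g' : StrongDual ℝ X, ‖g'‖ ≤ 1 ∧ char V hV g' = 1 ∧ char W hW g' = 1 ∧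
      ‖g - g'‖ ≤ max (1 - char V hV g) (1 - char W hW g) + ε := by
  classical
  set a := char V hV g with ha
  set b := char W hW g with hb
  set E : Set ℝ := {t | |rep g t - a| < ε} ∩ Iic (1 / 2) with hE
  set F : Set ℝ := {t | |rep g t - b| < ε} ∩ (Iic (1 / 2))ᶜ with hF
  have hEm : MeasurableSet E :=
    (measurableSet_lt (((rep_measurable g).sub_const a).abs) measurable_const).inter
      measurableSet_Iic
  have hFm : MeasurableSet F :=
    (measurableSet_lt (((rep_measurable g).sub_const b).abs) measurable_const).inter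
      measurableSet_Iic.compl
  have hEV : E ∈ V := by
    refine Filter.inter_mem ?_ hVA
    have := Metric.tendsto_nhds.1 (tendsto_val V g) ε hε
    exact this
  have hFW : F ∈ W := by
    refine Filter.inter_mem ?_ hWA
    have := Metric.tendsto_nhds.1 (tendsto_val W g) ε hε
    exact this
  set h : ℝ → ℝ := fun t => if t ∈ E ∪ F then 1 else rep g t with hh
  have hhm : Measurable h := Measurable.ite (hEm.union hFm) measurable_const (rep_measurable g)
  have hrep : ∀ t, |rep g t| ≤ 1 := fun t => (rep_le g t).trans hg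
  have hh1 : ∀ t, |h t| ≤ 1 := by
    intro t
    change |if t ∈ E ∪ F then 1 else rep g t| ≤ 1
    split_ifs
    · simp
    · exact hrep t
  refine ⟨G h hhm 1 hh1, norm_G_le _ _ _ _, ?_, ?_, ?_⟩
  · refine char_G V hV h hhm 1 hh1 1 (tendsto_const_nhds.congr' ?_)
    filter_upwards [hEV] with t ht
    exact (if_pos (Or.inl ht)).symm
  · refine char_G W hW h hhm 1 hh1 1 (tendsto_const_nhds.congr' ?_)
    filter_upwards [hFW] with t ht
    exact (if_pos (Or.inr ht)).symm
  · set D := max (1 - a) (1 - b) + ε with hD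
    have ha1 : a ≤ 1 := (le_abs_self a).trans ((abs_val V g).trans hg)
    have hD0 : 0 ≤ D := by
      have := le_max_left (1 - a) (1 - b)
      linarith
    have hdiff : ∀ t, |rep g t - h t| ≤ D := by
      intro t
      change |rep g t - if t ∈ E ∪ F then 1 else rep g t| ≤ D
      have h1 := (abs_le.1 (hrep t)).2
      split_ifs with ht
      · rw [abs_sub_comm, abs_of_nonneg (by linarith)]
        rcases ht with ht | ht
        · have h0 : |rep g t - a| < ε := ht.1
          have h2 := (abs_lt.1 h0).1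
          have h3 := le_max_left (1 - a) (1 - b)
          linarith
        · have h0 : |rep g t - b| < ε := ht.1
          have h2 := (abs_lt.1 h0).1
          have h3 := le_max_right (1 - a) (1 - b)
          linarith
      · rw [sub_self, abs_zero]; exact hD0
    have heq : g - G h hhm 1 hh1 = G (fun t => rep g t - h t) ((rep_measurable g).sub hhm) D
        hdiff := by
      refine ContinuousLinearMap.ext fun f => ?_
      rw [_root_.sub_apply]
      conv_lhs => rw [eq_G_rep g]
      rw [G_apply, G_apply, G_apply, ← integral_sub]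
      · refine integral_congr_ae (ae_of_all _ fun t => ?_)
        ring
      · exact (L1.integrable_coeFn f).bdd_mul (rep_measurable g).aestronglyMeasurable
          (ae_of_all _ (rep_le g))
      · exact (L1.integrable_coeFn f).bdd_mul hhm.aestronglyMeasurable (ae_of_all _ hh1)
    rw [heq]
    exact norm_G_le _ _ _ _

/-- The norm of `s φ + t ψ + z` does not depend on `s, t ≥ 1/4` with `s + t = 1`. -/
lemma norm_indep (V W : Ultrafilter ℝ) (hV : (V : Filter ℝ) ≤ ae μ) (hW : (W : Filter ℝ) ≤ ae μ)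
    (hVA : Iic (1 / 2 : ℝ) ∈ V) (hWA : (Iic (1 / 2 : ℝ))ᶜ ∈ W) (s t s' t' : ℝ)
    (hs : 1 / 4 ≤ s) (ht : 1 / 4 ≤ t) (hst : s + t = 1) (hst' : s' + t' = 1)
    (z : StrongDual ℝ (StrongDual ℝ X)) (hz : ‖z‖ ≤ 1 / 4) :
    ‖s • char V hV + t • char W hW + z‖ ≤ ‖s' • char V hV + t' • char W hW + z‖ := by
  set N := ‖s' • char V hV + t' • char W hW + z‖ with hN
  have hN0 : 0 ≤ N := norm_nonneg (s' • char V hV + t' • char W hW + z)
  have key : ∀ g : StrongDual ℝ X, ‖g‖ ≤ 1 → (s • char V hV + t • char W hW + z) g ≤ N := by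
    intro g hg
    refine le_of_forall_pos_le_add fun ε hε => ?_
    obtain ⟨g', hg', h1, h2, h3⟩ := modify V W hV hW hVA hWA g hg ε hε
    have h4 : (s' • char V hV + t' • char W hW + z) g' ≤ N := by
      refine (le_abs_self _).trans ?_
      have h5 := (s' • char V hV + t' • char W hW + z).le_opNorm g'
      rw [Real.norm_eq_abs] at h5
      exact h5.trans (by nlinarith)
    have h5 : (s' • char V hV + t' • char W hW + z) g' = 1 + z g' := by
      change s' * char V hV g' + t' * char W hW g' + z g' = 1 + z g'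
      rw [h1, h2]; linarith
    have h6 : (s • char V hV + t • char W hW + z) g =
        s * char V hV g + t * char W hW g + z g := rfl
    have h7 : z g - z g' ≤ 1 / 4 * (max (1 - char V hV g) (1 - char W hW g) + ε) := by
      rw [← map_sub]
      refine (le_abs_self _).trans ?_
      have h8 := z.le_opNorm (g - g')
      rw [Real.norm_eq_abs] at h8
      refine h8.trans (mul_le_mul hz h3 (norm_nonneg _) (by norm_num))
    have h8 : char V hV g ≤ 1 := (le_abs_self _).trans ((abs_val V g).trans hg)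
    have h9 : char W hW g ≤ 1 := (le_abs_self _).trans ((abs_val W g).trans hg)
    have h10 : 1 / 4 * max (1 - char V hV g) (1 - char W hW g) ≤
        s * (1 - char V hV g) + t * (1 - char W hW g) := by
      rcases max_cases (1 - char V hV g) (1 - char W hW g) with h | h
      · rw [h.1]; nlinarith
      · rw [h.1]; nlinarith
    rw [h6]
    rw [h5] at h4
    nlinarith
  refine ContinuousLinearMap.opNorm_le_of_unit_norm hN0 fun g hg => ?_
  rw [Real.norm_eq_abs, abs_le]
  refine ⟨?_, key g hg.le⟩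
  have h1 := key (-g) (by rw [norm_neg]; exact hg.le)
  rw [map_neg] at h1
  linarith

/-- The bidual fails uniform property (S). -/
lemma bidual_fails : ¬ UniformS (StrongDual ℝ (StrongDual ℝ X)) := by
  classical
  intro hS
  -- two ultrafilters
  have hex : ∀ A : Set ℝ, MeasurableSet A → μ A ≠ 0 → ∃ V : Ultrafilter ℝ,
      (V : Filter ℝ) ≤ ae μ ∧ A ∈ V := by
    intro A hA hμA
    have hne : (ae μ ⊓ 𝓟 A).NeBot := by
      have h1 : ae μ ⊓ 𝓟 A = ae (μ.restrict A) := by rw [ae_restrict_eq hA]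
      rw [h1, ae_neBot]
      intro h2
      apply hμA
      rw [Measure.restrict_eq_zero] at h2
      exact h2
    refine ⟨Ultrafilter.of (ae μ ⊓ 𝓟 A), (Ultrafilter.of_le _).trans inf_le_left, ?_⟩
    exact (Ultrafilter.of_le (ae μ ⊓ 𝓟 A)) (Filter.mem_inf_of_right (mem_principal_self A))
  obtain ⟨V, hV, hVA⟩ := hex (Iic (1 / 2)) measurableSet_Iic (by
    rw [Measure.restrict_apply measurableSet_Iic]
    have : Iic (1 / 2 : ℝ) ∩ Icc 0 1 = Icc 0 (1 / 2) := by
      ext t; simp only [mem_inter_iff, mem_Iic, mem_Icc]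
      constructor
      · rintro ⟨h1, h2, h3⟩; exact ⟨h2, h1⟩
      · rintro ⟨h1, h2⟩; exact ⟨h2, h1, by linarith⟩
    rw [this, Real.volume_Icc]
    norm_num)
  obtain ⟨W, hW, hWA⟩ := hex (Iic (1 / 2))ᶜ measurableSet_Iic.compl (by
    rw [Measure.restrict_apply measurableSet_Iic.compl]
    have : (Iic (1 / 2 : ℝ))ᶜ ∩ Icc 0 1 = Ioc (1 / 2) 1 := by
      ext t; simp only [mem_inter_iff, mem_compl_iff, mem_Iic, mem_Icc, mem_Ioc, not_le]
      constructor
      · rintro ⟨h1, h2, h3⟩; exact ⟨h1, h3⟩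
      · rintro ⟨h1, h2⟩; exact ⟨h1, by linarith, h2⟩
    rw [this, Real.volume_Ioc]
    norm_num)
  set φ := char V hV with hφ
  set ψ := char W hW with hψ
  have hφ1 : ∀ g, |φ g| ≤ ‖g‖ := abs_val V
  have hψ1 : ∀ g, |ψ g| ≤ ‖g‖ := abs_val W
  -- the constant function and the sign
  let one : StrongDual ℝ X := G (fun _ => 1) measurable_const 1 (fun _ => by simp)
  have hone : ‖one‖ ≤ 1 := norm_G_le _ _ _ _
  have hφone : φ one = 1 := char_G V hV _ _ _ _ 1 tendsto_const_nhds
  have hψone : ψ one = 1 := char_G W hW _ _ _ _ 1 tendsto_const_nhds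
  let sgn : StrongDual ℝ X := G (fun t => if t ∈ Iic (1 / 2 : ℝ) then -1 else 1)
    (Measurable.ite measurableSet_Iic measurable_const measurable_const) 1 (fun t => by
      split_ifs <;> simp)
  have hsgn : ‖sgn‖ ≤ 1 := norm_G_le _ _ _ _
  have hφsgn : φ sgn = -1 := by
    refine char_G V hV _ _ _ _ (-1) (tendsto_const_nhds.congr' ?_)
    filter_upwards [hVA] with t ht
    exact (if_pos ht).symm
  have hψsgn : ψ sgn = 1 := by
    refine char_G W hW _ _ _ _ 1 (tendsto_const_nhds.congr' ?_)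
    filter_upwards [hWA] with t ht
    exact (if_neg ht).symm
  -- norms of convex combinations
  have hnorm : ∀ s t : ℝ, 0 ≤ s → 0 ≤ t → s + t = 1 → ‖s • φ + t • ψ‖ = 1 := by
    intro s t hs ht hst
    apply le_antisymm
    · refine ContinuousLinearMap.opNorm_le_bound _ zero_le_one fun g => ?_
      rw [one_mul, Real.norm_eq_abs]
      change |s * φ g + t * ψ g| ≤ ‖g‖
      refine (abs_add_le _ _).trans ?_
      rw [abs_mul, abs_mul, abs_of_nonneg hs, abs_of_nonneg ht]
      have h1 := mul_le_mul_of_nonneg_left (hφ1 g) hs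
      have h2 := mul_le_mul_of_nonneg_left (hψ1 g) ht
      have h3 : s * ‖g‖ + t * ‖g‖ = ‖g‖ := by rw [← add_mul, hst, one_mul]
      linarith
    · have h1 := (s • φ + t • ψ).le_opNorm one
      have h2 : (s • φ + t • ψ) one = 1 := by
        change s * φ one + t * ψ one = 1
        rw [hφone, hψone]; linarith
      rw [h2, norm_one] at h1
      nlinarith [norm_nonneg (s • φ + t • ψ)]
  obtain ⟨c, hc, h⟩ := hS (1 / 2) (1 / 4) (by norm_num) (by norm_num) (by norm_num)
  have h1 := h ((1 / 2 : ℝ) • φ + (1 / 2 : ℝ) • ψ) ((3 / 4 : ℝ) • φ + (1 / 4 : ℝ) • ψ)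
    (hnorm _ _ (by norm_num) (by norm_num) (by norm_num))
    (hnorm _ _ (by norm_num) (by norm_num) (by norm_num)) (by
      have h2 := ((1 / 2 : ℝ) • φ + (1 / 2 : ℝ) • ψ - ((3 / 4 : ℝ) • φ +
        (1 / 4 : ℝ) • ψ)).le_opNorm sgn
      have h3 : ((1 / 2 : ℝ) • φ + (1 / 2 : ℝ) • ψ - ((3 / 4 : ℝ) • φ +
          (1 / 4 : ℝ) • ψ)) sgn = 1 / 2 := by
        change (1 / 2 : ℝ) * φ sgn + (1 / 2 : ℝ) * ψ sgn - ((3 / 4 : ℝ) * φ sgn +
          (1 / 4 : ℝ) * ψ sgn) = 1 / 2
        rw [hφsgn, hψsgn]; norm_num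
      rw [h3, Real.norm_eq_abs, abs_of_pos (by norm_num : (0 : ℝ) < 1 / 2)] at h2
      nlinarith [norm_nonneg ((1 / 2 : ℝ) • φ + (1 / 2 : ℝ) • ψ - ((3 / 4 : ℝ) • φ +
        (1 / 4 : ℝ) • ψ))])
  have h2 : modulus ((1 / 2 : ℝ) • φ + (1 / 2 : ℝ) • ψ) ((3 / 4 : ℝ) • φ + (1 / 4 : ℝ) • ψ)
      (1 / 4) ≤ 0 := by
    refine Real.sSup_le ?_ le_rfl
    rintro _ ⟨z, hz, rfl⟩
    have h3 := norm_indep V W hV hW hVA hWA (1 / 2) (1 / 2) (3 / 4) (1 / 4) (by norm_num)
      (by norm_num) (by norm_num) (by norm_num) z hz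
    have h4 := norm_indep V W hV hW hVA hWA (3 / 4) (1 / 4) (1 / 2) (1 / 2) (by norm_num)
      (by norm_num) (by norm_num) (by norm_num) z hz
    rw [le_antisymm h3 h4, sub_self, abs_zero]
  linarith

/-- Halving a set with respect to a density. -/
lemma halve (w : ℝ → ℝ) (hw : Integrable w μ) (hw0 : ∀ t, 0 ≤ w t) (E : Set ℝ)
    (hE : MeasurableSet E) :
    ∃ t : ℝ, ∫ s in E ∩ Iic t, w s ∂μ = 1 / 2 * ∫ s in E, w s ∂μ := by
  set f : ℝ → ℝ := (E ∩ Icc 0 1).indicator w with hf
  have hEI : MeasurableSet (E ∩ Icc (0 : ℝ) 1) := hE.inter measurableSet_Icc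
  have hfint : Integrable f volume := by
    rw [hf, integrable_indicator_iff hEI]
    exact IntegrableOn.mono_set hw inter_subset_right
  set K : ℝ → ℝ := fun t => ∫ x in (0 : ℝ)..t, f x with hK
  have hKc : Continuous K := intervalIntegral.continuous_primitive
    (fun a b => hfint.intervalIntegrable) 0
  have hKt : ∀ t, 0 ≤ t → t ≤ 1 → ∫ s in E ∩ Iic t, w s ∂μ = K t := by
    intro t ht0 ht1
    rw [Measure.restrict_restrict (hE.inter measurableSet_Iic), hK]
    change _ = ∫ x in (0 : ℝ)..t, f x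
    rw [intervalIntegral.integral_of_le ht0, ← integral_Icc_eq_integral_Ioc, hf,
      setIntegral_indicator hEI]
    congr 2
    ext s
    simp only [mem_inter_iff, mem_Iic, mem_Icc]
    constructor
    · rintro ⟨⟨h1, h2⟩, h3, h4⟩; exact ⟨⟨h3, h2⟩, h1, h3, h4⟩
    · rintro ⟨⟨h1, h2⟩, h3, h4, h5⟩; exact ⟨⟨h3, h2⟩, h4, h5⟩
  have hK0 : K 0 = 0 := intervalIntegral.integral_same
  have hK1 : K 1 = ∫ s in E, w s ∂μ := by
    rw [← hKt 1 zero_le_one le_rfl, Measure.restrict_restrict (hE.inter measurableSet_Iic),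
      Measure.restrict_restrict hE]
    congr 2
    ext s
    simp only [mem_inter_iff, mem_Iic, mem_Icc]
    constructor
    · rintro ⟨⟨h1, _⟩, h3, h4⟩; exact ⟨h1, h3, h4⟩
    · rintro ⟨h1, h3, h4⟩; exact ⟨⟨h1, h4⟩, h3, h4⟩
  have hI0 : 0 ≤ ∫ s in E, w s ∂μ := integral_nonneg hw0
  obtain ⟨t, ht, htK⟩ := intermediate_value_Icc zero_le_one hKc.continuousOn
    (show 1 / 2 * ∫ s in E, w s ∂μ ∈ Icc (K 0) (K 1) by
      rw [hK0, hK1]; exact ⟨by linarith, by linarith⟩)
  exact ⟨t, by rw [hKt t ht.1 ht.2, htK]⟩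

/-- A set which carries little of the mass of `x` and `y` but the right proportion of `x - y`. -/
lemma exists_piece (w v : ℝ → ℝ) (hw : Integrable w μ) (hw0 : ∀ t, 0 ≤ w t)
    (hv : Integrable v μ) (k : ℕ) :
    ∃ E : Set ℝ, MeasurableSet E ∧ ∫ s in E, w s ∂μ = (∫ s, w s ∂μ) / 2 ^ k ∧
      (∫ s, v s ∂μ) / 2 ^ k ≤ ∫ s in E, v s ∂μ := by
  induction k with
  | zero => exact ⟨univ, MeasurableSet.univ, by simp, by simp⟩
  | succ k ih =>
    obtain ⟨E, hE, h1, h2⟩ := ih
    obtain ⟨t, ht⟩ := halve w hw hw0 E hE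
    have hsplit : ∀ f : ℝ → ℝ, Integrable f μ →
        ∫ s in E, f s ∂μ = (∫ s in E ∩ Iic t, f s ∂μ) + ∫ s in E \ Iic t, f s ∂μ := by
      intro f hf
      rw [integral_inter_add_sdiff measurableSet_Iic hf.integrableOn]
    have hw2 : ∫ s in E \ Iic t, w s ∂μ = 1 / 2 * ∫ s in E, w s ∂μ := by
      have := hsplit w hw
      linarith
    rcases le_total (∫ s in E ∩ Iic t, v s ∂μ) (∫ s in E \ Iic t, v s ∂μ) with h | h
    · refine ⟨E \ Iic t, hE.diff measurableSet_Iic, ?_, ?_⟩
      · rw [hw2, h1, pow_succ]; ring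
      · have := hsplit v hv
        rw [pow_succ, ← div_div]
        linarith
    · refine ⟨E ∩ Iic t, hE.inter measurableSet_Iic, ?_, ?_⟩
      · rw [ht, h1, pow_succ]; ring
      · have := hsplit v hv
        rw [pow_succ, ← div_div]
        linarith

/-- The restriction of a function to a set. -/
noncomputable def res (E : Set ℝ) (hE : MeasurableSet E) (f : X) : X :=
  ((Lp.memLp f).indicator hE).toLp (E.indicator f)

lemma res_ae (E : Set ℝ) (hE : MeasurableSet E) (f : X) :
    (res E hE f : ℝ → ℝ) =ᵐ[μ] E.indicator f := by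
  unfold res
  exact MemLp.coeFn_toLp _

lemma norm_res (E : Set ℝ) (hE : MeasurableSet E) (f : X) :
    ‖res E hE f‖ = ∫ t in E, |f t| ∂μ := by
  rw [L1.norm_eq_integral_norm, ← integral_indicator hE]
  refine integral_congr_ae ?_
  filter_upwards [res_ae E hE f] with t ht
  rw [ht]
  by_cases h : t ∈ E
  · rw [indicator_of_mem h, indicator_of_mem h]; rfl
  · rw [indicator_of_notMem h, indicator_of_notMem h, norm_zero]

lemma norm_sub_res (E : Set ℝ) (hE : MeasurableSet E) (f g : X) :
    ‖f - res E hE g‖ = ∫ t in Eᶜ, |f t| ∂μ + ∫ t in E, |f t - g t| ∂μ := by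
  have hfi := L1.integrable_coeFn f
  have hgi := L1.integrable_coeFn g
  have hf' : Integrable (fun t => |f t|) μ := hfi.abs
  have hfg : Integrable (fun t => |f t - g t|) μ := (hfi.sub hgi).abs
  rw [L1.norm_eq_integral_norm, ← integral_indicator hE, ← integral_indicator hE.compl,
    ← integral_add (hf'.indicator hE.compl) (hfg.indicator hE)]
  refine integral_congr_ae ?_
  filter_upwards [res_ae E hE g, Lp.coeFn_sub f (res E hE g)] with t ht1 ht2
  rw [ht2, Pi.sub_apply, ht1]
  by_cases h : t ∈ E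
  · have h' : t ∉ Eᶜ := fun h' => h' h
    rw [indicator_of_mem h, indicator_of_notMem h', indicator_of_mem h, zero_add]; rfl
  · have h' : t ∈ Eᶜ := h
    rw [indicator_of_notMem h, indicator_of_mem h', indicator_of_notMem h, add_zero, sub_zero]; rfl

/-- `L_1[0,1]` has uniform property (S). -/
lemma L1_uniformS : UniformS X := by
  intro d a hd _ ha
  obtain ⟨k, hk⟩ : ∃ k : ℕ, 2 / 2 ^ k ≤ a := by
    obtain ⟨k, hk⟩ := pow_unbounded_of_one_lt (2 / a) (one_lt_two : (1 : ℝ) < 2)
    refine ⟨k, ?_⟩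
    rw [div_lt_iff₀ ha] at hk
    rw [div_le_iff₀ (by positivity)]
    linarith
  refine ⟨d / 2 ^ k, by positivity, fun x y hx hy hxy => ?_⟩
  have hxi := L1.integrable_coeFn x
  have hyi := L1.integrable_coeFn y
  have hx1 : ∫ t, |x t| ∂μ = 1 := by rw [← hx, L1.norm_eq_integral_norm]; rfl
  have hy1 : ∫ t, |y t| ∂μ = 1 := by rw [← hy, L1.norm_eq_integral_norm]; rfl
  have hxy1 : ∫ t, |x t - y t| ∂μ = ‖x - y‖ := by
    rw [L1.norm_eq_integral_norm]
    refine integral_congr_ae ?_
    filter_upwards [Lp.coeFn_sub x y] with t ht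
    rw [ht]; rfl
  obtain ⟨E, hE, h1, h2⟩ := exists_piece (fun t => |x t| + |y t|) (fun t => |x t - y t|)
    (hxi.abs.add hyi.abs) (fun t => by positivity) (hxi.sub hyi).abs k
  rw [integral_add hxi.abs hyi.abs, hx1, hy1] at h1
  rw [hxy1] at h2
  have h3 : d / 2 ^ k ≤ ∫ t in E, |x t - y t| ∂μ :=
    (div_le_div_of_nonneg_right hxy (by positivity)).trans h2
  have h4 : ∫ t in E, (|x t| + |y t|) ∂μ = ∫ t in E, |x t| ∂μ + ∫ t in E, |y t| ∂μ :=
    integral_add hxi.abs.integrableOn hyi.abs.integrableOn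
  have h5 : 0 ≤ ∫ t in E, |x t| ∂μ := integral_nonneg fun t => abs_nonneg _
  have h6 : 0 ≤ ∫ t in E, |y t| ∂μ := integral_nonneg fun t => abs_nonneg _
  have h7 : ‖res E hE x‖ ≤ a := by rw [norm_res]; linarith
  have h8 : ‖res E hE y‖ ≤ a := by rw [norm_res]; linarith
  -- the two perturbations
  have n1 := norm_sub_res E hE x y
  have n2 := norm_sub_res E hE y y
  have n3 := norm_sub_res E hE y x
  have n4 := norm_sub_res E hE x x
  have z1 : ∫ t in E, |x t - x t| ∂μ = 0 := by simp
  have z2 : ∫ t in E, |y t - y t| ∂μ = 0 := by simp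
  have z3 : ∫ t in E, |y t - x t| ∂μ = ∫ t in E, |x t - y t| ∂μ := by
    congr 1; funext t; rw [abs_sub_comm]
  rw [z2, add_zero] at n2
  rw [z1, add_zero] at n4
  rw [z3] at n3
  have m1 : |‖x - res E hE y‖ - ‖y - res E hE y‖| ≤ modulus x y a := by
    refine le_csSup (modulus_bddAbove x y a) ⟨-res E hE y, by rw [norm_neg]; exact h8, ?_⟩
    rw [← sub_eq_add_neg x, ← sub_eq_add_neg y]
  have m2 : |‖x - res E hE x‖ - ‖y - res E hE x‖| ≤ modulus x y a := by
    refine le_csSup (modulus_bddAbove x y a) ⟨-res E hE x, by rw [norm_neg]; exact h7, ?_⟩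
    rw [← sub_eq_add_neg x, ← sub_eq_add_neg y]
  have l1 := le_abs_self (‖x - res E hE y‖ - ‖y - res E hE y‖)
  have l2 := neg_abs_le (‖x - res E hE x‖ - ‖y - res E hE x‖)
  linarith

/-- `L_1[0,1]` is a Banach space with uniform property (S) whose bidual fails uniform property
(S). -/
theorem result :
    ∃ (X : Type) (_ : NormedAddCommGroup X) (_ : NormedSpace ℝ X), CompleteSpace X ∧
      UniformS X ∧ ¬ UniformS (StrongDual ℝ (StrongDual ℝ X)) :=
  ⟨X, inferInstance, inferInstance, inferInstance, L1_uniformS, bidual_fails⟩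

end Pool.Agent.Results.MP_973dba_an.BidualFails
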